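import Pool.Agent.W2helper62.DS.DS10
import Pool.Agent.W2helper30.AN.Ex
import Pool.Agent.Y877.SxI

/-!
# Representations `n = k + m` with `p_k + D` and `p_{p_m} + E` prime, for the shifts `D`, `E` in very sparse families

The shifts are `h · P(y) · (c + κ ⌊U f(x₀ + 1 / i)⌋)`, `M < i ≤ 2 M`, where `P(y)` is the product of the primes `≤ y`,
`y ≍ log log n`, and `f` is an arbitrary real analytic function; the number `M` of the shifts can be as small as
`exp ((log n) ^ (2 / 3 + ε'))`, and their size is `n` up to powers of `log n`.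

Method: Vinogradov's mean value method and the inequality of Kusmin and Landau for the sums of `e(t f(x₀ + 1 / i))` and a
discrete Fejer kernel (`Pool.Agent.W2helper30.AN`, helper30); from such laws to primes as in the starting files
`Pool.Agent.N625.PT`, made independent of the digits in `Pool.Agent.W2helper62.DS`.
-/

set_option autoImplicit false

open Finset

namespace Pool.Agent.Results.MP_04e9b2_nt.AnalyticSparseShifts

/-- the `k`-th prime, `p 1 = 2` -/
noncomputable def p (k : ℕ) : ℕ := Nat.nth Nat.Prime (k - 1)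

/-- the product of `1 - 1/q` over the primes `q ≤ y` -/
noncomputable def V (y : ℕ) : ℝ := ∏ q ∈ (Icc 1 y).filter Nat.Prime, (1 - 1 / (q : ℝ))

/-- A function `f`, real analytic at `x₀` and not constant near `x₀`: `K ≥ 1` is the order of the zero of `f - f x₀` at
`x₀`; and a factor `κ ≠ 0`. -/
structure Curve where
  f : ℝ → ℝ
  x₀ : ℝ
  K : ℕ
  κ : ℤ
  analytic : AnalyticAt ℝ f x₀
  one_le : 1 ≤ K
  lower : ∀ j : ℕ, 1 ≤ j → j < K → iteratedDeriv j f x₀ = 0
  order : iteratedDeriv K f x₀ ≠ 0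
  ne_zero : κ ≠ 0

/-- the parameters of a family of shifts -/
structure Par where
  M : ℕ
  U : ℝ
  c : ℤ
  h : ℕ

/-- The conditions on the parameters: `M ^ (K + δ₀) ≤ U ≤ exp ((log M) ^ (3 / 2 - ε₀))`; the quantity `R = U / M ^ K` (the
order of the length of the interval with the integers `κ ⌊U f(x₀ + 1 / i)⌋`, `M < i ≤ 2 M`) is between `n / log ^ C n` and
`n log ^ C n`; `|c + κ U f(x₀)| ≤ R log ^ C U`; and `1 ≤ h ≤ log ^ C n`. -/
def Par.Ok (P : Par) (F : Curve) (δ₀ ε₀ : ℝ) (C n : ℕ) : Prop :=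
  ((P.M : ℝ) ^ ((F.K : ℝ) + δ₀) ≤ P.U ∧ P.U ≤ Real.exp ((Real.log P.M) ^ (3 / 2 - ε₀))) ∧
  (P.U / (P.M : ℝ) ^ F.K ≤ n * Real.log n ^ C ∧ (n : ℝ) ≤ P.U / (P.M : ℝ) ^ F.K * Real.log n ^ C) ∧
  |(P.c : ℝ) + F.κ * (P.U * F.f F.x₀)| ≤ P.U / (P.M : ℝ) ^ F.K * Real.log P.U ^ C ∧
  (1 ≤ P.h ∧ (P.h : ℝ) ≤ Real.log n ^ C)

/-- the shifts: the `i`-th shift of the family is `h · P(y) · (c + κ ⌊U f(x₀ + 1 / i)⌋)`, with `P(y)` the product of the
primes `≤ y` -/
noncomputable def shift (F : Curve) (P : Par) (y i : ℕ) : ℤ :=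
  P.h * (primorial y : ℕ) * (P.c + F.κ * ⌊P.U * F.f (F.x₀ + 1 / i)⌋)

/-- the `k ∈ S` such that `p_k + D` is a prime number -/
noncomputable def One (S : Finset ℕ) (D : ℤ) : Finset ℕ :=
  S.filter (fun k => ((p k : ℤ) + D).toNat.Prime)

/-- the `k ∈ S` such that `p_k + D` and `p_{p_m} + E` are prime numbers, where `m = n - k` -/
noncomputable def Both (n : ℕ) (S : Finset ℕ) (D E : ℤ) : Finset ℕ :=
  S.filter (fun k => ((p k : ℤ) + D).toNat.Prime ∧ ((p (p (n - k)) : ℤ) + E).toNat.Prime)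

/-- The asymptotic formulas for the set `S` and the shifts `D`, `E`: unless some `p_k + D` or `p_{p_m} + E`, `k ∈ S`,
`m = n - k`, is not positive, `(1 ± ε) #S / (V y log n)` of the numbers `p_k + D`, `k ∈ S`, are prime, and for
`(1 ± ε) #S / (V y log n) ^ 2` of the `k ∈ S` both `p_k + D` and `p_{p_m} + E` are prime. -/
def Holds (n : ℕ) (S : Finset ℕ) (y : ℕ) (ε : ℝ) (D E : ℤ) : Prop :=
  (∀ k ∈ S, 0 < (p k : ℤ) + D ∧ 0 < (p (p (n - k)) : ℤ) + E) →
    |((One S D).card : ℝ) - S.card / (V y * Real.log n)| ≤ ε * (S.card / (V y * Real.log n)) ∧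
    |((Both n S D E).card : ℝ) - S.card / (V y * Real.log n) ^ 2| ≤ ε * (S.card / (V y * Real.log n) ^ 2)

theorem nth_inj : Function.Injective (Nat.nth Nat.Prime) := Nat.nth_injective Nat.infinite_setOfPred_prime

theorem p_inj (n : ℕ) : Set.InjOn p (Ioo 0 n : Finset ℕ) := by
  intro a ha b hb hab
  rw [mem_coe, mem_Ioo] at ha hb
  have := nth_inj hab
  omega

theorem pp_inj (n : ℕ) : Set.InjOn (fun k => p (p (n - k))) (Ioo 0 n : Finset ℕ) := by
  intro a ha b hb hab
  rw [mem_coe, mem_Ioo] at ha hb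
  have h1 := nth_inj hab
  have h2 : 2 ≤ p (n - a) := (Nat.prime_nth_prime _).two_le
  have h3 : 2 ≤ p (n - b) := (Nat.prime_nth_prime _).two_le
  have h4 : p (n - a) = p (n - b) := by omega
  have h5 := nth_inj h4
  omega

theorem V_eq (y : ℕ) : V y = Pool.Agent.H373R2.T7.Vz y := rfl

open Classical in
/-- **(1)** Let `F`, `G` be two functions with factors as above, and `δ₀ > 0`, `0 < ε₀ < 1 / 2`, `A`, `B`, `C`, `θ > 0`,
`0 < ε ≤ 1`. For every large `n`, every `y` between `θ log log n` and `B log log n`, all parameters `P` for `F` and `Q` for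
`G` which satisfy the conditions `Par.Ok`, and EVERY set `S` of at least `n / log ^ A n` integers `0 < k < n`: for all but at
most `ε P.M Q.M` of the pairs `i₁ ∈ (P.M, 2 P.M]`, `i₂ ∈ (Q.M, 2 Q.M]` the shifts `D = shift F P y i₁`,
`E = shift G Q y i₂` have the following property. If `p_k + D > 0` and `p_{p_m} + E > 0` for all `k ∈ S`, `m = n - k` (in
particular if `D, E ≥ 0`), the number of the `k ∈ S` with `p_k + D` and `p_{p_m} + E` both prime is
`(1 ± ε) #S / (V y log n) ^ 2`, and the number of the `k ∈ S` with `p_k + D` prime is `(1 ± ε) #S / (V y log n)`.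

**(2)** Every function which is real analytic at `x₀` and not constant near `x₀` can be used, with a suitable `K`, and with
`K = 1` if its derivative at `x₀` is not zero; for example, `f x = x`, `x₀ = 0`: the shifts `h P(y) (c + κ ⌊U / i⌋)`. -/
theorem result :
    (∀ (F G : Curve) (δ₀ ε₀ : ℝ), 0 < δ₀ → 0 < ε₀ → ε₀ < 1 / 2 → ∀ (A B C : ℕ) (θ ε : ℝ), 0 < θ → 0 < ε → ε ≤ 1 →
      ∃ n₀ : ℕ, ∀ n : ℕ, n₀ ≤ n → ∀ y : ℕ, θ * Real.log (Real.log n) ≤ y → y ≤ B * Real.log (Real.log n) →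
      ∀ P Q : Par, P.Ok F δ₀ ε₀ C n → Q.Ok G δ₀ ε₀ C n →
      ∀ S : Finset ℕ, S ⊆ Ioo 0 n → (n : ℝ) ≤ S.card * Real.log n ^ A →
        (((Ioc P.M (2 * P.M) ×ˢ Ioc Q.M (2 * Q.M)).filter
          (fun i => ¬ Holds n S y ε (shift F P y i.1) (shift G Q y i.2))).card : ℝ) ≤ ε * (P.M * Q.M)) ∧
    (∀ (f : ℝ → ℝ) (x₀ : ℝ), AnalyticAt ℝ f x₀ → (¬ ∀ᶠ x in nhds x₀, f x = f x₀) → ∀ κ : ℤ, κ ≠ 0 →
      ∃ F : Curve, F.f = f ∧ F.x₀ = x₀ ∧ F.κ = κ) ∧
    (∀ (f : ℝ → ℝ) (x₀ : ℝ), AnalyticAt ℝ f x₀ → deriv f x₀ ≠ 0 → ∀ κ : ℤ, κ ≠ 0 →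
      ∃ F : Curve, F.f = f ∧ F.x₀ = x₀ ∧ F.κ = κ ∧ F.K = 1) ∧
    (∀ κ : ℤ, κ ≠ 0 → ∃ F : Curve, F.f = (fun x => x) ∧ F.x₀ = 0 ∧ F.κ = κ ∧ F.K = 1) := by
  have hone : ∀ (f : ℝ → ℝ) (x₀ : ℝ), AnalyticAt ℝ f x₀ → deriv f x₀ ≠ 0 → ∀ κ : ℤ, κ ≠ 0 →
      ∃ F : Curve, F.f = f ∧ F.x₀ = x₀ ∧ F.κ = κ ∧ F.K = 1 := by
    intro f x₀ h1 h2 κ hκ
    have h3 := Pool.Agent.W2helper30.AN.ord_one h1 h2
    exact ⟨⟨f, x₀, 1, κ, h3.1, h3.2.1, h3.2.2.1, h3.2.2.2, hκ⟩, rfl, rfl, rfl, rfl⟩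
  refine ⟨?_, ?_, hone, fun κ hκ => hone _ _ (by fun_prop) (by simp) κ hκ⟩
  · intro F G δ₀ ε₀ hδ₀ hε₀ hε₀2 A B C θ ε hθ hε hε1
    obtain ⟨n1, hn1⟩ := Pool.Agent.W2helper62.DS.ac_fin 2 ![F.f, G.f] ![F.x₀, G.x₀] ![F.K, G.K]
      (by
        rw [Fin.forall_fin_two]
        exact ⟨⟨F.analytic, F.one_le, F.lower, F.order⟩, ⟨G.analytic, G.one_le, G.lower, G.order⟩⟩)
      δ₀ ε₀ hδ₀ hε₀ hε₀2 ![F.κ, G.κ]
      (by
        rw [Fin.forall_fin_two]
        exact ⟨F.ne_zero, G.ne_zero⟩) C C A C 5 B θ hθ ε hε hε1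
    obtain ⟨n3, hn3⟩ := Pool.Agent.H373R2.T7.ev_L' 1
    obtain ⟨n4, hn4⟩ := Pool.Agent.Y877.SX.nth_le_log
    obtain ⟨n5, hn5⟩ := Pool.Agent.Y877.SX.nth_nth_le_log
    refine ⟨max (max n1 n3) (max n4 n5), fun n hn y hy1 hy2 P Q hP hQ S hS hSA => ?_⟩
    have hL1 := hn3 n (by omega)
    have f1 : ∀ k ∈ Ioo 0 n, (p k).Prime ∧ (p k : ℝ) ≤ n * Real.log n ^ 5 := by
      intro k hk
      rw [mem_Ioo] at hk
      refine ⟨Nat.prime_nth_prime _, (hn4 n (by omega) (k - 1) (by omega)).trans ?_⟩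
      apply mul_le_mul_of_nonneg_left _ (Nat.cast_nonneg _)
      exact pow_le_pow_right₀ hL1 (by norm_num)
    have f2 : ∀ k ∈ Ioo 0 n, (p (p (n - k))).Prime ∧ (p (p (n - k)) : ℝ) ≤ n * Real.log n ^ 5 := by
      intro k hk
      rw [mem_Ioo] at hk
      exact ⟨Nat.prime_nth_prime _, hn5 n (by omega) (n - k - 1) (by omega)⟩
    have h1 := hn1 n (by omega) ![P.M, Q.M] ![P.U, Q.U]
      (by
        rw [Fin.forall_fin_two]
        exact ⟨⟨hP.1.1, hP.1.2⟩, ⟨hQ.1.1, hQ.1.2⟩⟩)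
      (by
        rw [Fin.forall_fin_two]
        exact ⟨hP.2.1, hQ.2.1⟩) y hy1 hy2 ![P.c, Q.c]
      (by
        rw [Fin.forall_fin_two]
        exact ⟨hP.2.2.1, hQ.2.2.1⟩) ![P.h, Q.h]
      (by
        rw [Fin.forall_fin_two]
        exact ⟨hP.2.2.2, hQ.2.2.2⟩) S ![p, fun k => p (p (n - k))]
      (by
        rw [Fin.forall_fin_two]
        exact ⟨(p_inj n).mono (by exact_mod_cast hS), (pp_inj n).mono (by exact_mod_cast hS)⟩)
      (by
        rw [Fin.forall_fin_two]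
        exact ⟨fun k hk => f1 k (hS hk), fun k hk => f2 k (hS hk)⟩) hSA (fun _ => 1) (fun _ => Or.inl rfl)
    rw [Fin.prod_univ_two] at h1
    refine le_trans ?_ h1
    norm_cast
    refine card_le_card_of_injOn (fun i => ![i.1, i.2]) ?_ ?_
    · intro i hi
      rw [mem_coe, mem_filter, mem_product] at hi
      obtain ⟨⟨hi1, hi2⟩, hi3⟩ := hi
      rw [mem_coe, mem_filter, Fintype.mem_piFinset, Fin.forall_fin_two]
      refine ⟨⟨hi1, hi2⟩, fun hg => hi3 ?_⟩
      intro hpos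
      have e1 : ∀ k : ℕ, ((primorial y * P.h : ℕ) : ℤ) * (P.c + F.κ * Pool.Agent.W2helper30.AN.vl F.f F.x₀ P.U i.1) + 1 * (p k : ℤ) =
          (p k : ℤ) + shift F P y i.1 := by
        intro k
        unfold shift Pool.Agent.W2helper30.AN.vl
        push_cast
        ring
      have e2 : ∀ k : ℕ, ((primorial y * Q.h : ℕ) : ℤ) * (Q.c + G.κ * Pool.Agent.W2helper30.AN.vl G.f G.x₀ Q.U i.2) + 1 * (p (p (n - k)) : ℤ) =
          (p (p (n - k)) : ℤ) + shift G Q y i.2 := by
        intro k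
        unfold shift Pool.Agent.W2helper30.AN.vl
        push_cast
        ring
      have hg' := hg (by
        rw [Fin.forall_fin_two]
        constructor
        · intro k hk
          have := (hpos k hk).1
          rw [← e1 k] at this
          exact this
        · intro k hk
          have := (hpos k hk).2
          rw [← e2 k] at this
          exact this)
      rw [V_eq]
      constructor
      · have h2 := hg' 1 (by norm_num)
        rw [pow_one] at h2
        convert h2 using 5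
        unfold One
        apply filter_congr
        intro k _
        rw [Fin.forall_fin_two]
        constructor
        · intro h3
          refine ⟨fun _ => ?_, fun h => absurd h (by norm_num)⟩
          rw [← e1 k] at h3
          exact h3
        · intro h3
          have := h3.1 (by norm_num)
          rw [← e1 k]
          exact this
      · have h2 := hg' 2 le_rfl
        convert h2 using 5
        unfold Both
        apply filter_congr
        intro k _
        rw [Fin.forall_fin_two]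
        constructor
        · intro h3
          refine ⟨fun _ => ?_, fun _ => ?_⟩
          · have := h3.1
            rw [← e1 k] at this
            exact this
          · have := h3.2
            rw [← e2 k] at this
            exact this
        · intro h3
          constructor
          · rw [← e1 k]
            exact h3.1 (by norm_num)
          · rw [← e2 k]
            exact h3.2 (by norm_num)
    · intro i _ j _ hij
      have h2 := congrFun hij 0
      have h3 := congrFun hij 1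
      exact Prod.ext h2 h3
  · intro f x₀ h1 h2 κ hκ
    obtain ⟨K, h3⟩ := Pool.Agent.W2helper30.AN.ord_exists h1 h2
    exact ⟨⟨f, x₀, K, κ, h3.1, h3.2.1, h3.2.2.1, h3.2.2.2, hκ⟩, rfl, rfl, rfl⟩

end Pool.Agent.Results.MP_04e9b2_nt.AnalyticSparseShifts
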