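import Pool.Agent.W2helper70.CG.Rep

set_option autoImplicit false

/-!
# Splitting integers into indices of twins and of super twins in the Cramér–Granville model

Let `M` be a positive even modulus and `κ > 0`. The random set `R` consists of the numbers `m` coprime
to `M` which are kept, where `m` is kept with probability `min (1, κ / log m)` (never for `m = 0, 1`),
independently for all `m`. For `κ = M / φ(M)` this is Cramér's model of the primes, corrected for the
primes which divide `M` (Granville). Let `P 1 < P 2 < …` be the elements of `R`; `Twin M ω j` means that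
the `j`-th element exists and `P j + 2` is in `R`. So `Twin M ω k` is the analogue of the condition that
`p_k + 2` is prime, and `Twin M ω (P M ω m)` of the condition that `p_{p_m} + 2` is prime. The set `reps M ω n a b` consists of
the `k` in `(a, b]` for which `P k + 2` and `P (P (n - k)) + 2` are in `R`.

There is a set of outcomes of probability one on which, for all sufficiently large `n`:

1. `n = k + m` with `k, m ≥ 1` such that `P k + 2` and `P (P m) + 2` are in `R`, and the number of these
   representations with `k ≤ n / 2` is between `c n / (log n) ^ 2` and `C n / (log n) ^ 2`;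
2. (`A` fixed) every interval `(y, y + H]` with `n ^ (1 / A) ≤ y`, `y + H ≤ n / 2` and
   `H ≥ C (log n) ^ 3` contains between `c H / (log n) ^ 2` and `C H / (log n) ^ 2` of these `k`;
3. some interval `(y, y + c (log n) ^ 3]` between `n / 4` and `n / 2` contains none of them.

So in the model the number of representations with `k ≤ n / 2` is of the exact order `n / (log n) ^ 2`
and the largest gap between consecutive `k` (in `[n ^ (1 / A), n / 2]`) is of the exact order
`(log n) ^ 3`. Nothing is claimed about the primes.

Proof. The events that `P j + 2` is in `R` are not independent, since the index of an element depends on all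
smaller elements, and in the second condition the index is itself an element. Given the elements up to
`P j`, the index `j + 1` has the property with conditional probability at least `c / log P j`, and the
index `j` with conditional probability at most `κ / log P j`. This gives exponential bounds for the number
of such indices in a set (`Base`, `Dev`, `Up`), also given the past. The numbers `P (n - k)`,
`k ≤ n / 2`, are larger than `n - 2`, so the set of all indices `P (n - k)` for which `P k + 2` is in `R`
is known when the first `n - 2` elements are known, and the bounds are applied a second time to this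
random set of indices (`Two`, `UpTwo`). For 3. a domination by independent coins is used for `√n` such
sets at the same time (`Sharp`, `Rep`).
-/

namespace Pool.Agent.Results.MP_04e9b2_nt.CramerModelRepresentations

open MeasureTheory Filter
open Pool.Agent.W2helper70.CG

theorem result (κ : ℝ) (hκ : 0 < κ) (M : ℕ) (hM : Even M) (hM0 : 0 < M) :
    -- 1. all large `n` are represented; the number of representations with `k ≤ n / 2`
    (∃ c C : ℝ, 0 < c ∧ 0 < C ∧ ∀ᵐ ω ∂(law κ), ∀ᶠ n : ℕ in atTop,
      (∃ k m : ℕ, 0 < k ∧ 0 < m ∧ k + m = n ∧ Twin M ω k ∧ Twin M ω (P M ω m)) ∧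
      c * n / Real.log n ^ 2 ≤ (reps M ω n 0 (n / 2)).card ∧
      (reps M ω n 0 (n / 2)).card ≤ C * n / Real.log n ^ 2) ∧
    -- 2. the number of representations with `k` in an interval
    (∀ A : ℕ, ∃ c C : ℝ, 0 < c ∧ 0 < C ∧ ∀ᵐ ω ∂(law κ), ∀ᶠ n : ℕ in atTop, ∀ y H : ℕ,
      n ≤ y ^ A → 2 * (y + H) ≤ n → C * Real.log n ^ 3 ≤ H →
      c * H / Real.log n ^ 2 ≤ (reps M ω n y (y + H)).card ∧
      (reps M ω n y (y + H)).card ≤ C * H / Real.log n ^ 2) ∧
    -- 3. an interval of length `c (log n) ^ 3` without representations
    (∃ c : ℝ, 0 < c ∧ ∀ᵐ ω ∂(law κ), ∀ᶠ n : ℕ in atTop, ∃ y : ℕ, n ≤ 4 * y ∧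
      2 * (y + c * Real.log n ^ 3) ≤ (n : ℝ) ∧
      ∀ k : ℕ, y < k → (k : ℝ) ≤ y + c * Real.log n ^ 3 →
        ¬ (Twin M ω k ∧ Twin M ω (P M ω (n - k)))) := by
  classical
  refine ⟨?_, fun A => window_two hκ hM hM0 A, gap_two hκ hM hM0⟩
  obtain ⟨c, C, hc, hC, h⟩ := count_two hκ hM hM0
  refine ⟨c, C, hc, hC, ?_⟩
  filter_upwards [h] with ω hω
  filter_upwards [hω, ev_log 1, eventually_ge_atTop 2] with n hn hlog h2
  refine ⟨?_, hn⟩
  have hl0 : 0 < Real.log n := by linarith
  have hn0 : (0 : ℝ) < n := by exact_mod_cast (by omega : 0 < n)
  have h3 : (0 : ℝ) < (reps M ω n 0 (n / 2)).card := lt_of_lt_of_le (by positivity) hn.1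
  obtain ⟨k, hk⟩ := Finset.card_pos.1 (by exact_mod_cast h3 : 0 < (reps M ω n 0 (n / 2)).card)
  unfold reps at hk
  rw [Finset.mem_filter, Finset.mem_Ioc] at hk
  exact ⟨k, n - k, hk.1.1, by omega, by omega, hk.2.1, hk.2.2⟩

end Pool.Agent.Results.MP_04e9b2_nt.CramerModelRepresentations
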