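import Pool.Agent.W2helper62.DS.DS11
import Pool.Agent.Y877.SxI

/-!
# Representations `n = k + m` with `p_k + D` and `p_{p_m} + E` prime, for random shifts `D`, `E` with exchangeable digits
# in two different bases

Nothing is used besides Mathlib in the statement: `∑ v ∈ range (b ^ k) ×ˢ range (b' ^ k'), (if P v then 0 else μ v.1 * μ' v.2)`
is the probability that the pair of independent random integers with the distributions `μ`, `μ'` does not have the
property `P`.

Method: if blocks of digits can be exchanged then the exponential sums are exponentially small in the number of the places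
at which the frequency is not close to a rational number with a small denominator; the second moment over random
multiples of a small primorial is compared with the sieve (starting files, `Pool.Agent.N625.PT`, helper625), for pairs of
sources with different bases and different numbers of digits in `Pool.Agent.W2helper62.DS`.
-/

set_option autoImplicit false

open Finset

namespace Pool.Agent.Results.MP_04e9b2_nt.ExchangeableDigitShifts

/-- The probability, for the distribution `μ` on the words of `k` digits (the integers `v < b ^ k`), that the word begins with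
the `i` digits of `u < b ^ i`. -/
noncomputable def begins (b k : ℕ) (μ : ℕ → ℝ) (i u : ℕ) : ℝ := ∑ w ∈ range (b ^ (k - i)), μ (u * b ^ (k - i) + w)

/-- `p` is a probability on the words of `k` digits in base `b`, read as integers `v < b ^ k`. There is another probability
`μ` with `p ≤ k ^ T μ` such that after every beginning `u` two different blocks `a`, `a'` of `L` digits can be exchanged:
`p (u a w) = r p (u a' w)` for all endings `w`, with a factor `r` between `η` and `1 / η` which does not depend on `w`; and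
given the beginning `u`, each of the two blocks comes next with a probability of at least `η` in the distribution `μ`.
(For `T = 0` one has `μ = p`. For the uniform distribution on a set of words `r` is `1`.) -/
structure Exchangeable (b L : ℕ) (η : ℝ) (T k : ℕ) (p : ℕ → ℝ) : Prop where
  nonneg : ∀ v, 0 ≤ p v
  sum : ∑ v ∈ range (b ^ k), p v = 1
  dominated : ∃ μ : ℕ → ℝ, (∀ v, 0 ≤ μ v) ∧ ∑ v ∈ range (b ^ k), μ v = 1 ∧ (∀ v < b ^ k, p v ≤ (k : ℝ) ^ T * μ v) ∧
    ∀ i u : ℕ, i + L ≤ k → u < b ^ i → ∃ (a a' : ℕ) (r : ℝ), a < a' ∧ a' < b ^ L ∧ η ≤ r ∧ η * r ≤ 1 ∧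
      (∀ w < b ^ (k - (i + L)), p ((b ^ L * u + a) * b ^ (k - (i + L)) + w) = r * p ((b ^ L * u + a') * b ^ (k - (i + L)) + w)) ∧
      η * begins b k μ i u ≤ begins b k μ (i + L) (b ^ L * u + a) ∧
      η * begins b k μ i u ≤ begins b k μ (i + L) (b ^ L * u + a')

/-- the `k`-th prime, `p 1 = 2` -/
noncomputable def p (k : ℕ) : ℕ := Nat.nth Nat.Prime (k - 1)

/-- the product of `1 - 1/q` over the primes `q ≤ y` -/
noncomputable def V (y : ℕ) : ℝ := ∏ q ∈ (Icc 1 y).filter Nat.Prime, (1 - 1 / (q : ℝ))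

/-- the multiple `h P(y) (c + κ v)` of the product `P(y)` of the primes `≤ y` -/
def shift (y h : ℕ) (c κ : ℤ) (v : ℕ) : ℤ := h * (primorial y : ℕ) * (c + κ * v)

/-- the `k ∈ S` such that `p_k + D` is a prime number -/
noncomputable def One (S : Finset ℕ) (D : ℤ) : Finset ℕ :=
  S.filter (fun k => ((p k : ℤ) + D).toNat.Prime)

/-- the `k ∈ S` such that `p_k + D` and `p_{p_m} + E` are prime numbers, where `m = n - k` -/
noncomputable def Both (n : ℕ) (S : Finset ℕ) (D E : ℤ) : Finset ℕ :=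
  S.filter (fun k => ((p k : ℤ) + D).toNat.Prime ∧ ((p (p (n - k)) : ℤ) + E).toNat.Prime)

/-- The asymptotic formulas for the set `S` and the shifts `D`, `E`: unless some `p_k + D` or `p_{p_m} + E`, `k ∈ S`,
`m = n - k`, is not positive, `(1 ± ε) #S / (V y log n)` of the numbers `p_k + D`, `k ∈ S`, are prime, and for
`(1 ± ε) #S / (V y log n) ^ 2` of the `k ∈ S` both `p_k + D` and `p_{p_m} + E` are prime. -/
def Holds (n : ℕ) (S : Finset ℕ) (y : ℕ) (ε : ℝ) (D E : ℤ) : Prop :=
  (∀ k ∈ S, 0 < (p k : ℤ) + D ∧ 0 < (p (p (n - k)) : ℤ) + E) →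
    |((One S D).card : ℝ) - S.card / (V y * Real.log n)| ≤ ε * (S.card / (V y * Real.log n)) ∧
    |((Both n S D E).card : ℝ) - S.card / (V y * Real.log n) ^ 2| ≤ ε * (S.card / (V y * Real.log n) ^ 2)

lemma begins_sum (b k : ℕ) (μ : ℕ → ℝ) (i u : ℕ) (hi : i < k) :
    ∑ a ∈ range b, begins b k μ (i + 1) (b * u + a) = begins b k μ i u := by
  unfold begins
  obtain ⟨n, hn⟩ : ∃ n, k - i = n + 1 := ⟨k - i - 1, by omega⟩
  have h1 : k - (i + 1) = n := by omega
  rw [h1, hn, pow_succ, mul_comm (b ^ n) b, Pool.Agent.N625.PT.sum_blocks b (b ^ n)]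
  apply sum_congr rfl
  intro a _
  apply sum_congr rfl
  intro w _
  congr 1
  ring

lemma flex_of {b L T k : ℕ} {η : ℝ} {p : ℕ → ℝ} (hp : Exchangeable b L η T k p) : Pool.Agent.N625.PT.Flex b L η T k p := by
  obtain ⟨h0, h1, μ, m0, m1, m2, m3⟩ := hp
  have hT : (0 : ℝ) ≤ (k : ℝ) ^ T := by positivity
  have hb0 : ∀ i u, 0 ≤ begins b k μ i u := fun i u => sum_nonneg fun w _ => m0 _
  refine ⟨h0, h1, fun i u => (k : ℝ) ^ T * begins b k μ i u, fun i u => mul_nonneg hT (hb0 i u), ?_, ?_, ?_, ?_⟩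
  · intro v hv
    refine (m2 v hv).trans (le_of_eq ?_)
    unfold begins
    simp
  · intro i hi u _
    simp only
    rw [← mul_sum, begins_sum b k μ i u hi]
  · simp only
    have : begins b k μ 0 0 = 1 := by
      unfold begins
      simpa using m1
    rw [this, mul_one]
  · intro i u hi hu
    obtain ⟨a, a', r, q1, q2, q3, q4, q5, q6, q7⟩ := m3 i u hi hu
    refine ⟨a, a', r, q1, q2, q3, q4, q5, ?_, ?_⟩
    · simp only
      calc η * ((k : ℝ) ^ T * begins b k μ i u) = (k : ℝ) ^ T * (η * begins b k μ i u) := by ring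
        _ ≤ _ := mul_le_mul_of_nonneg_left q6 hT
    · simp only
      calc η * ((k : ℝ) ^ T * begins b k μ i u) = (k : ℝ) ^ T * (η * begins b k μ i u) := by ring
        _ ≤ _ := mul_le_mul_of_nonneg_left q7 hT

theorem nth_inj : Function.Injective (Nat.nth Nat.Prime) := Nat.nth_injective Nat.infinite_setOfPred_prime

theorem p_inj (n : ℕ) : Set.InjOn p (Ioo 0 n : Finset ℕ) := by
  intro a ha b hb hab
  rw [mem_coe, mem_Ioo] at ha hb
  have := nth_inj hab
  omega

theorem pp_inj (n : ℕ) : Set.InjOn (fun k => p (p (n - k))) (Ioo 0 n : Finset ℕ) := by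
  intro a ha b hb hab
  rw [mem_coe, mem_Ioo] at ha hb
  have h1 := nth_inj hab
  have h2 : 2 ≤ p (n - a) := (Nat.prime_nth_prime _).two_le
  have h3 : 2 ≤ p (n - b) := (Nat.prime_nth_prime _).two_le
  have h4 : p (n - a) = p (n - b) := by omega
  have h5 := nth_inj h4
  omega

theorem V_eq (y : ℕ) : V y = Pool.Agent.H373R2.T7.Vz y := rfl

open Classical in
/-- **Representations `n = k + m` and random shifts.** Let `b, b' ≥ 2`, `L, L' ≥ 1`, `0 < η ≤ 1`, `T`, `κ, κ' ≠ 0`, `A`, `B`, `C`,
`θ > 0` and `0 < ε ≤ 1` be fixed and let `n` be large. Let `y` be between `θ log log n` and `B log log n`, let `b ^ k` and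
`b' ^ k'` be `n` up to a factor `log ^ C n`, `|c| ≤ C b ^ k`, `|c'| ≤ C b' ^ k'`, `1 ≤ h, h' ≤ log ^ C n`, and let `S` be an
ARBITRARY set of at least `n / log ^ A n` integers `0 < k < n`. For independent random integers `v < b ^ k`, `v' < b' ^ k'` whose
distributions have exchangeable blocks of digits in base `b` and in base `b'`, with a probability of at least `1 - ε` the
shifts `D = h P(y) (c + κ v)`, `E = h' P(y) (c' + κ' v')` have the following property. If `p_k + D > 0` and
`p_{p_m} + E > 0` for all `k ∈ S`, `m = n - k` (in particular if `D, E ≥ 0`), the number of the `k ∈ S` with `p_k + D` and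
`p_{p_m} + E` both prime is `(1 ± ε) #S / (V y log n) ^ 2`, and the number of the `k ∈ S` with `p_k + D` prime is
`(1 ± ε) #S / (V y log n)`. -/
theorem result (b b' L L' : ℕ) (hb : 2 ≤ b) (hb' : 2 ≤ b') (hL : 1 ≤ L) (hL' : 1 ≤ L') (η : ℝ) (hη0 : 0 < η) (hη1 : η ≤ 1)
    (T : ℕ) (κ κ' : ℤ) (hκ : κ ≠ 0) (hκ' : κ' ≠ 0) (A B C : ℕ) (θ ε : ℝ) (hθ : 0 < θ) (hε : 0 < ε) (hε1 : ε ≤ 1) :
    ∃ n₀ : ℕ, ∀ n : ℕ, n₀ ≤ n → ∀ y : ℕ, θ * Real.log (Real.log n) ≤ y → y ≤ B * Real.log (Real.log n) →
    ∀ k k' : ℕ, ((b : ℝ) ^ k ≤ n * Real.log n ^ C ∧ (n : ℝ) ≤ (b : ℝ) ^ k * Real.log n ^ C) →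
    ((b' : ℝ) ^ k' ≤ n * Real.log n ^ C ∧ (n : ℝ) ≤ (b' : ℝ) ^ k' * Real.log n ^ C) →
    ∀ μ μ' : ℕ → ℝ, Exchangeable b L η T k μ → Exchangeable b' L' η T k' μ' →
    ∀ c c' : ℤ, |c| ≤ C * (b : ℤ) ^ k → |c'| ≤ C * (b' : ℤ) ^ k' →
    ∀ h h' : ℕ, (1 ≤ h ∧ (h : ℝ) ≤ Real.log n ^ C) → (1 ≤ h' ∧ (h' : ℝ) ≤ Real.log n ^ C) →
    ∀ S : Finset ℕ, S ⊆ Ioo 0 n → (n : ℝ) ≤ S.card * Real.log n ^ A →
      ∑ v ∈ range (b ^ k) ×ˢ range (b' ^ k'),
        (if Holds n S y ε (shift y h c κ v.1) (shift y h' c' κ' v.2) then 0 else μ v.1 * μ' v.2) ≤ ε := by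
  obtain ⟨n1, hn1⟩ := Pool.Agent.W2helper62.DS.tupleDT 2 ![b, b'] ![κ, κ']
    ![Pool.Agent.N625.PT.Flex b L η T, Pool.Agent.N625.PT.Flex b' L' η T]
    (by
      rw [Fin.forall_fin_two]
      exact ⟨Pool.Agent.W2helper62.DS.flex_dcls b L hb hL η hη0 hη1 T κ hκ,
        Pool.Agent.W2helper62.DS.flex_dcls b' L' hb' hL' η hη0 hη1 T κ' hκ'⟩) C C A C 5 B θ hθ ε hε hε1
  obtain ⟨n3, hn3⟩ := Pool.Agent.H373R2.T7.ev_L' 1
  obtain ⟨n4, hn4⟩ := Pool.Agent.Y877.SX.nth_le_log
  obtain ⟨n5, hn5⟩ := Pool.Agent.Y877.SX.nth_nth_le_log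
  refine ⟨max (max n1 n3) (max n4 n5), fun n hn y hy1 hy2 k k' hk hk' μ μ' hμ hμ' c c' hc hc' h h' hh hh' S hS hSA => ?_⟩
  have hL1 := hn3 n (by omega)
  have f1 : ∀ k ∈ Ioo 0 n, (p k).Prime ∧ (p k : ℝ) ≤ n * Real.log n ^ 5 := by
    intro k hk
    rw [mem_Ioo] at hk
    refine ⟨Nat.prime_nth_prime _, (hn4 n (by omega) (k - 1) (by omega)).trans ?_⟩
    apply mul_le_mul_of_nonneg_left _ (Nat.cast_nonneg _)
    exact pow_le_pow_right₀ hL1 (by norm_num)
  have f2 : ∀ k ∈ Ioo 0 n, (p (p (n - k))).Prime ∧ (p (p (n - k)) : ℝ) ≤ n * Real.log n ^ 5 := by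
    intro k hk
    rw [mem_Ioo] at hk
    exact ⟨Nat.prime_nth_prime _, hn5 n (by omega) (n - k - 1) (by omega)⟩
  have h1 := hn1 n (by omega) ![k, k']
    (by
      rw [Fin.forall_fin_two]
      exact ⟨hk, hk'⟩) ![μ, μ']
    (by
      rw [Fin.forall_fin_two]
      exact ⟨flex_of hμ, flex_of hμ'⟩) y hy1 hy2 ![c, c']
    (by
      rw [Fin.forall_fin_two]
      exact ⟨hc, hc'⟩) ![h, h']
    (by
      rw [Fin.forall_fin_two]
      exact ⟨hh, hh'⟩) S ![p, fun k => p (p (n - k))]
    (by
      rw [Fin.forall_fin_two]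
      exact ⟨(p_inj n).mono (by exact_mod_cast hS), (pp_inj n).mono (by exact_mod_cast hS)⟩)
    (by
      rw [Fin.forall_fin_two]
      exact ⟨fun k hk => f1 k (hS hk), fun k hk => f2 k (hS hk)⟩) hSA (fun _ => 1) (fun _ => Or.inl rfl)
  refine le_trans ?_ h1
  have hbij : ∑ v ∈ range (b ^ k) ×ˢ range (b' ^ k'),
        (if Holds n S y ε (shift y h c κ v.1) (shift y h' c' κ' v.2) then 0 else μ v.1 * μ' v.2) =
      ∑ v ∈ Fintype.piFinset (fun j : Fin 2 => range ((![b, b'] j) ^ (![k, k'] j))),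
        (if Holds n S y ε (shift y h c κ (v 0)) (shift y h' c' κ' (v 1)) then 0 else μ (v 0) * μ' (v 1)) := by
    refine sum_nbij' (fun v => ![v.1, v.2]) (fun v => (v 0, v 1)) ?_ ?_ ?_ ?_ ?_
    · intro v hv
      rw [mem_product] at hv
      rw [Fintype.mem_piFinset, Fin.forall_fin_two]
      exact ⟨hv.1, hv.2⟩
    · intro v hv
      rw [Fintype.mem_piFinset, Fin.forall_fin_two] at hv
      rw [mem_product]
      exact ⟨hv.1, hv.2⟩
    · intro v _
      rfl
    · intro v _
      funext j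
      fin_cases j <;> rfl
    · intro v _
      rfl
  rw [hbij]
  apply sum_le_sum
  intro v _
  have hw0 : 0 ≤ μ (v 0) * μ' (v 1) := mul_nonneg (hμ.nonneg _) (hμ'.nonneg _)
  have hw : ∏ j : Fin 2, (![μ, μ'] j) (v j) = μ (v 0) * μ' (v 1) := by
    rw [Fin.prod_univ_two]
    rfl
  rw [hw]
  split_ifs with hA hB hB
  · exact le_rfl
  · exact hw0
  · exfalso
    apply hA
    intro hpos
    have e1 : ∀ k : ℕ, Pool.Agent.N625.PT.Nm y h c κ (v 0) + 1 * (p k : ℤ) = (p k : ℤ) + shift y h c κ (v 0) := by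
      intro k
      unfold shift Pool.Agent.N625.PT.Nm
      push_cast
      ring
    have e2 : ∀ k : ℕ, Pool.Agent.N625.PT.Nm y h' c' κ' (v 1) + 1 * (p (p (n - k)) : ℤ) =
        (p (p (n - k)) : ℤ) + shift y h' c' κ' (v 1) := by
      intro k
      unfold shift Pool.Agent.N625.PT.Nm
      push_cast
      ring
    have hg' := hB (by
      rw [Fin.forall_fin_two]
      constructor
      · intro k hk
        have := (hpos k hk).1
        rw [← e1 k] at this
        exact this
      · intro k hk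
        have := (hpos k hk).2
        rw [← e2 k] at this
        exact this)
    rw [V_eq]
    constructor
    · have h2 := hg' 1 (by norm_num)
      rw [pow_one] at h2
      convert h2 using 5
      unfold One
      apply filter_congr
      intro k _
      rw [Fin.forall_fin_two]
      constructor
      · intro h3
        refine ⟨fun _ => ?_, fun h => absurd h (by norm_num)⟩
        rw [← e1 k] at h3
        exact h3
      · intro h3
        have := h3.1 (by norm_num)
        rw [← e1 k]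
        exact this
    · have h2 := hg' 2 le_rfl
      convert h2 using 5
      unfold Both
      apply filter_congr
      intro k _
      rw [Fin.forall_fin_two]
      constructor
      · intro h3
        refine ⟨fun _ => ?_, fun _ => ?_⟩
        · have := h3.1
          rw [← e1 k] at this
          exact this
        · have := h3.2
          rw [← e2 k] at this
          exact this
      · intro h3
        constructor
        · rw [← e1 k]
          exact h3.1 (by norm_num)
        · rw [← e2 k]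
          exact h3.2 (by norm_num)
  · exact le_rfl

end Pool.Agent.Results.MP_04e9b2_nt.ExchangeableDigitShifts
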