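import Pool.Agent.W2helper62.MI4
import Pool.Agent.N798.H.All

/-!
# Metric form of the question on the indices of twin primes, for all `n` outside a thin set

Q1: every `n > 2` is `k + m` with `p_k + 2` and `p_{p_m} + 2` prime.  We show: for almost every `(α, β) ∈ (0, ∞)²` and
all integers `b, d`, all `n` outside a set with `o(N / (log N)^K)` elements up to `N` (every `K`) are `k + m` with
`⌊α p_k⌋ + b` and `⌊β p_{p_m}⌋ + d` prime; the number of these `k` is `~ T / (log n)^2` in EVERY arithmetic progression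
of `T ≥ n / (log n)^C` values of `k`, simultaneously.  The question is about `α = β = 1`, `b = d = 2`.

Behind this is a general theorem: let `u_1, …, u_t` be ARBITRARY increasing sequences of positive integers with
`u_i(j) ≤ j (log j)^C`, and let, for each `n`, at most `(log n)^B` ARBITRARY finite sets `W` of indices be given, with
ARBITRARY injections `a_i : W → {1, …, n}` (for instance `a_1(k) = k`, `a_2(k) = n - k`, or `a_2` a permutation).  For
almost every `α ∈ (0, ∞)^t` and all integers `b_i`, for all `n` outside a thin set, all the numbers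
`⌊α_i u_i(a_i(k))⌋ + b_i` are primes for `~ #W / (log n)^t` of the `k ∈ W`, for all the `W` of the `n`-th family with
`#W ≥ n / (log n)^C`.

From the starting files: the mean square estimate for one sequence (`Pool.Agent.N798.HS.sdP`, and the lemmas `prd`,
`ex`); there it is applied to one-sided problems and one set of indices.
-/

set_option autoImplicit false

namespace Pool.Agent.Results.MP_04e9b2_nt.MetricIndexPairs

open Finset MeasureTheory Filter Topology

/-- `u 1 < u 2 < …` are positive integers and `u j ≤ j (log j)^C` for large `j`, for some `C` -/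
def Slow (u : ℕ → ℕ) : Prop := (∀ m n, 1 ≤ m → m < n → u m < u n) ∧ 1 ≤ u 1 ∧
  ∃ C n0 : ℕ, ∀ n, n0 ≤ n → (u n : ℝ) ≤ n * (Real.log n) ^ C

open Classical in
/-- `E` has `o(N / (log N)^K)` elements up to `N`, for every `K` -/
def Thin (E : ℕ → Prop) : Prop := ∀ K : ℕ,
  Tendsto (fun N : ℕ => (#((Icc 1 N).filter E) : ℝ) * (Real.log N) ^ K / N) atTop (𝓝 0)

/-- for each `n` a family of finite sets `W n l`, `l ∈ Λ n`, with injections `a i n l` of `W n l` into `{1, …, n}`; the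
family has at most `(log n)^B` members if `n` is large -/
structure Family (ι : Type) (t B : ℕ) (Λ : ℕ → Finset ι) (W : ℕ → ι → Finset ℕ)
    (a : Fin t → ℕ → ι → ℕ → ℕ) : Prop where
  few : ∀ᶠ n : ℕ in atTop, (#(Λ n) : ℝ) ≤ (Real.log n) ^ B
  inj : ∀ i n, ∀ l ∈ Λ n, Set.InjOn (a i n l) (W n l)
  range : ∀ i n, ∀ l ∈ Λ n, ∀ j ∈ W n l, 1 ≤ a i n l j ∧ a i n l j ≤ n

/-- the number of the `j ∈ W` for which all the `⌊α_i u_i(a_i(j))⌋ + b_i` are primes -/
noncomputable def count {t : ℕ} (u : Fin t → ℕ → ℕ) (b : Fin t → ℤ) (α : Fin t → ℝ) (W : Finset ℕ)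
    (a : Fin t → ℕ → ℕ) : ℕ :=
  #(W.filter fun j : ℕ => ∀ i, (⌊α i * (u i (a i j) : ℝ)⌋ + b i).toNat.Prime)

/-- the `j`-th prime, `p 1 = 2` -/
noncomputable def p (j : ℕ) : ℕ := Nat.nth Nat.Prime (j - 1)

/-- `⌊α p_k⌋ + b` and `⌊β p_{p_m}⌋ + d` are primes -/
def Both (α β : ℝ) (b d : ℤ) (k m : ℕ) : Prop :=
  (⌊α * (p k : ℝ)⌋ + b).toNat.Prime ∧ (⌊β * (p (p m) : ℝ)⌋ + d).toNat.Prime

open Classical in
/-- the number of the `k` of the progression `c, c + q, …, c + (T - 1) q` such that `⌊α p_k⌋ + b` and `⌊β p_{p_m}⌋ + d`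
are primes, where `m = n - k` -/
noncomputable def reps (α β : ℝ) (b d : ℤ) (n c q T : ℕ) : ℕ :=
  #((Finset.range T).filter fun t : ℕ => Both α β b d (c + q * t) (n - (c + q * t)))

lemma general (t : ℕ) (u : Fin t → ℕ → ℕ) (hu : ∀ i, Slow (u i)) (ι : Type) (B : ℕ) (Λ : ℕ → Finset ι)
    (W : ℕ → ι → Finset ℕ) (a : Fin t → ℕ → ι → ℕ → ℕ) (hF : Family ι t B Λ W a) :
    ∀ᵐ α : Fin t → ℝ, (∀ i, 0 < α i) → ∀ b : Fin t → ℤ, ∀ ε : ℝ, 0 < ε → ∀ C : ℕ,
      Thin fun n => ∃ l ∈ Λ n, (n : ℝ) / (Real.log n) ^ C ≤ #(W n l) ∧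
        ε < |(count u b α (W n l) (fun i => a i n l) : ℝ) / (#(W n l) / (Real.log n) ^ t) - 1| := by
  have hF' : Pool.Agent.W2helper62.MI.Fam ι B Λ W a :=
    ⟨hF.few, fun i n l hl => ⟨hF.inj i n l hl, hF.range i n l hl⟩⟩
  filter_upwards [Pool.Agent.W2helper62.MI.famT Pool.Agent.N798.HS.sdP Pool.Agent.N999.HS.prd Pool.Agent.N280.HS.ex
    u hu hF'] with α hα hpos b
  exact (hα hpos b).2

lemma pairs : ∀ᵐ α : Fin 2 → ℝ, (∀ i, 0 < α i) → ∀ b d : ℤ, ∀ ε : ℝ, 0 < ε → ∀ C : ℕ,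
      Thin fun n => ∃ c q T : ℕ, 1 ≤ c ∧ 1 ≤ q ∧ 1 ≤ T ∧ c + q * (T - 1) < n ∧ (n : ℝ) / (Real.log n) ^ C ≤ T ∧
        ε < |(reps (α 0) (α 1) b d n c q T : ℝ) / (T / (Real.log n) ^ 2) - 1| := by
  classical
  filter_upwards [Pool.Agent.W2helper62.MI.progT Pool.Agent.N798.HS.sdP Pool.Agent.N999.HS.prd Pool.Agent.N280.HS.ex
    (k := 2) ![fun j => Nat.nth Nat.Prime (j - 1), fun j => Nat.nth Nat.Prime (Nat.nth Nat.Prime (j - 1) - 1)]
    (by
      intro i
      fin_cases i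
      · exact Pool.Agent.W2helper62.MI.sq_p
      · exact Pool.Agent.W2helper62.MI.sq_pp) ![false, true]] with α hα hpos b d ε hε C
  have h1 := hα hpos ![b, d] ε hε C
  have e1 : ∀ n c q T, Pool.Agent.W2helper62.MI.pcnt
      ![fun j => Nat.nth Nat.Prime (j - 1), fun j => Nat.nth Nat.Prime (Nat.nth Nat.Prime (j - 1) - 1)]
      ![false, true] ![b, d] α n c q T = reps (α 0) (α 1) b d n c q T := by
    intro n c q T
    unfold Pool.Agent.W2helper62.MI.pcnt reps
    congr 1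
    ext t
    rw [mem_filter, mem_filter, Fin.forall_fin_two]
    rfl
  simp only [e1] at h1
  exact h1

lemma thin_mono {E E' : ℕ → Prop} (h : ∀ᶠ n in atTop, E n → E' n) (hE : Thin E') : Thin E :=
  Pool.Agent.N798.HS.thin_mono h hE

/-- **Metric form of the question.** (1) Arbitrary slow sequences `u_i`, at most `(log n)^B` arbitrary index sets `W` for
each `n`, arbitrary injections into `{1, …, n}`. (2) The sequences `p_k` and `p_{p_m}`, `k + m = n`, `k` in a
progression: for almost every `(α, β)` in `(0, ∞)²`, all integers `b`, `d` and all `n` outside a thin set, in every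
progression of `T ≥ n / (log n)^C` numbers `1 ≤ k < n` the number of the `k` with `⌊α p_k⌋ + b` and `⌊β p_{p_m}⌋ + d`
prime, `m = n - k`, is `T / (log n)^2` up to a relative error of at most `ε`; (3) in particular all `n` outside a thin set
have the form `k + m` with these primes. -/
theorem result :
    (∀ (t : ℕ) (u : Fin t → ℕ → ℕ), (∀ i, Slow (u i)) → ∀ (ι : Type) (B : ℕ) (Λ : ℕ → Finset ι)
      (W : ℕ → ι → Finset ℕ) (a : Fin t → ℕ → ι → ℕ → ℕ), Family ι t B Λ W a →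
      ∀ᵐ α : Fin t → ℝ, (∀ i, 0 < α i) → ∀ b : Fin t → ℤ, ∀ ε : ℝ, 0 < ε → ∀ C : ℕ,
        Thin fun n => ∃ l ∈ Λ n, (n : ℝ) / (Real.log n) ^ C ≤ #(W n l) ∧
          ε < |(count u b α (W n l) (fun i => a i n l) : ℝ) / (#(W n l) / (Real.log n) ^ t) - 1|) ∧
    (∀ᵐ α : Fin 2 → ℝ, (∀ i, 0 < α i) → ∀ b d : ℤ, (∀ ε : ℝ, 0 < ε → ∀ C : ℕ,
      Thin fun n => ∃ c q T : ℕ, 1 ≤ c ∧ 1 ≤ q ∧ 1 ≤ T ∧ c + q * (T - 1) < n ∧ (n : ℝ) / (Real.log n) ^ C ≤ T ∧
        ε < |(reps (α 0) (α 1) b d n c q T : ℝ) / (T / (Real.log n) ^ 2) - 1|) ∧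
      Thin fun n => ¬ ∃ k m : ℕ, 1 ≤ k ∧ 1 ≤ m ∧ k + m = n ∧ Both (α 0) (α 1) b d k m) := by
  classical
  refine ⟨general, ?_⟩
  filter_upwards [pairs] with α hα hpos b d
  refine ⟨hα hpos b d, ?_⟩
  refine thin_mono ?_ (hα hpos b d (1 / 2) (by norm_num) 1)
  have hlt : Tendsto (fun n : ℕ => Real.log (n : ℝ)) atTop atTop :=
    Real.tendsto_log_atTop.comp tendsto_natCast_atTop_atTop
  filter_upwards [hlt.eventually_ge_atTop 2, eventually_ge_atTop 4] with n hn hn4 hE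
  have hn0 : (4 : ℝ) ≤ n := by exact_mod_cast hn4
  have hT : ((n - 1 : ℕ) : ℝ) = n - 1 := by
    rw [Nat.cast_sub (by omega)]
    simp
  refine ⟨1, 1, n - 1, le_rfl, le_rfl, by omega, by omega, ?_, ?_⟩
  · rw [pow_one, hT, div_le_iff₀ (by linarith)]
    nlinarith
  · have h0 : reps (α 0) (α 1) b d n 1 1 (n - 1) = 0 := by
      unfold reps
      rw [card_eq_zero, filter_eq_empty_iff]
      intro t ht
      rw [mem_range] at ht
      intro hB
      exact hE ⟨1 + 1 * t, n - (1 + 1 * t), by omega, by omega, by omega, hB⟩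
    rw [h0]
    norm_num

end Pool.Agent.Results.MP_04e9b2_nt.MetricIndexPairs
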